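import Mathlib
import Pool.Agent.W702.CoHopf.Main
import Pool.Agent.V11238.MG.FP

/-!
The finitely presented group `(C_3 * C_5) ⋊ C_2`, where `C_2` inverts each letter, is co-hopfian,
and its subgroup `C_3 * C_5` of index two is not.
-/

namespace Pool.Agent.Results.MP_ce3880_al.CoHopfSubgroup

open Pool.Agent.W702.CoHopf Monoid.CoprodI

/-- the inclusion of the letters in the triple free product -/
noncomputable def jj : ∀ b, M b →* Monoid.Coprod (Monoid.Coprod (M true) (M false)) ℤˣ
  | true => Monoid.Coprod.inl.comp Monoid.Coprod.inl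
  | false => Monoid.Coprod.inl.comp Monoid.Coprod.inr

/-- the map of the triple free product to the semidirect product -/
noncomputable def ff : Monoid.Coprod (Monoid.Coprod (M true) (M false)) ℤˣ →* G :=
  Monoid.Coprod.lift
    (Monoid.Coprod.lift (SemidirectProduct.inl.comp (of (M := M) (i := true)))
      (SemidirectProduct.inl.comp (of (M := M) (i := false)))) SemidirectProduct.inr

theorem ff_jj (b : Bool) (x : M b) : ff (jj b x) = SemidirectProduct.inl (of x) := by
  cases b <;> simp [ff, jj]

/-- the relators -/
noncomputable def rel (p : Σ b, M b) : Monoid.Coprod (Monoid.Coprod (M true) (M false)) ℤˣ :=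
  Monoid.Coprod.inr (-1) * jj p.1 p.2 * Monoid.Coprod.inr (-1) * jj p.1 p.2

theorem ff_surj : Function.Surjective ff := by
  have hN : ∀ n : N, ∃ g, ff g = SemidirectProduct.inl n := by
    intro n
    induction n using Monoid.CoprodI.induction_on with
    | one => exact ⟨1, by simp⟩
    | of i m => exact ⟨jj i m, ff_jj i m⟩
    | mul x y hx hy =>
      obtain ⟨g, hg⟩ := hx
      obtain ⟨h, hh⟩ := hy
      exact ⟨g * h, by rw [map_mul, map_mul, hg, hh]⟩
  intro g
  obtain ⟨g1, hg1⟩ := hN g.left
  refine ⟨g1 * Monoid.Coprod.inr g.right, ?_⟩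
  rw [map_mul, hg1]
  have : ff (Monoid.Coprod.inr g.right) = SemidirectProduct.inr g.right := by simp [ff]
  rw [this, SemidirectProduct.inl_left_mul_inr_right]

instance (b : Bool) : Finite (M b) := by
  cases b
  · exact inferInstanceAs (Finite (Multiplicative (ZMod 5)))
  · exact inferInstanceAs (Finite (Multiplicative (ZMod 3)))

theorem G_fp : Group.IsFinitelyPresented G := by
  have hP : Group.IsFinitelyPresented (Monoid.Coprod (Monoid.Coprod (M true) (M false)) ℤˣ) :=
    inferInstance
  refine @Group.IsFinitelyPresented.of_surjective _ _ _ _ hP ff ff_surj ?_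
  refine ⟨Set.range rel, Set.finite_range rel, ?_⟩
  apply le_antisymm
  · apply Subgroup.normalClosure_le_normal
    rintro _ ⟨⟨b, x⟩, rfl⟩
    show ff (rel ⟨b, x⟩) = 1
    have hs : ff (Monoid.Coprod.inr (-1)) = s := by simp [ff, s]
    have h1 : s * SemidirectProduct.inl (of x) * s⁻¹ =
        (SemidirectProduct.inl (sigma (of x)) : G) := by
      have := SemidirectProduct.inl_aut (φ := act) (-1) (of x)
      rw [act_neg] at this
      rw [this, s, map_inv]
    have hss : s = s⁻¹ := by
      apply eq_inv_of_mul_eq_one_left
      rw [s, ← map_mul]; simp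
    have h2 : ff (rel ⟨b, x⟩) = s * SemidirectProduct.inl (of x) * s⁻¹ *
        SemidirectProduct.inl (of x) := by
      rw [rel, map_mul, map_mul, map_mul, hs, ff_jj, ← hss]
    rw [h2, h1, sigma_of, ← map_mul, ← map_mul, inv_mul_cancel, map_one, map_one]
  · set K := Subgroup.normalClosure (Set.range rel) with hK
    let mk := QuotientGroup.mk' K
    let f1 : N →* _ ⧸ K := Monoid.CoprodI.lift fun b => mk.comp (jj b)
    let f2 : ℤˣ →* _ ⧸ K := mk.comp Monoid.Coprod.inr
    have hf : ∀ g : ℤˣ, f1.comp (act g).toMonoidHom = (MulAut.conj (f2 g)).toMonoidHom.comp f1 := by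
      intro g
      rcases Int.units_eq_one_or g with rfl | rfl
      · ext b x
        simp
      · apply Monoid.CoprodI.ext_hom
        intro b
        refine MonoidHom.ext fun x => ?_
        show f1 (act (-1) (of x)) = f2 (-1) * f1 (of x) * (f2 (-1))⁻¹
        rw [act_neg, sigma_of]
        have e1 : ∀ y : M b, f1 (of y) = mk (jj b y) := fun y => by
          simp [f1]
        have e2 : mk (rel ⟨b, x⟩) = 1 :=
          (QuotientGroup.eq_one_iff _).2 (Subgroup.subset_normalClosure ⟨_, rfl⟩)
        rw [rel, map_mul, map_mul, map_mul] at e2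
        have e3 : f2 (-1) * f2 (-1) = 1 := by
          rw [← map_mul]; simp
        have e4 : (f2 (-1))⁻¹ = f2 (-1) := (eq_inv_of_mul_eq_one_left e3).symm
        have e5 : f1 (of x⁻¹) * f1 (of x) = 1 := by
          rw [← map_mul, ← map_mul, inv_mul_cancel, map_one, map_one]
        have e6 : f2 (-1) * f1 (of x) * f2 (-1) * f1 (of x) = 1 := by
          rw [e1]; exact e2
        rw [e4, eq_inv_of_mul_eq_one_left e5]
        exact (eq_inv_of_mul_eq_one_left e6).symm
    let back : G →* _ ⧸ K := SemidirectProduct.lift f1 f2 hf
    have hb : back.comp ff = mk := by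
      apply Monoid.Coprod.hom_ext
      · apply Monoid.Coprod.hom_ext
        · ext x
          simp [back, ff, f1, jj]
        · ext x
          simp [back, ff, f1, jj]
      · ext x
        simp [back, ff, f2]
    intro z hz
    rw [MonoidHom.mem_ker] at hz
    have : mk z = 1 := by rw [← hb, MonoidHom.comp_apply, hz, map_one]
    exact (QuotientGroup.eq_one_iff _).1 this

/-- There is a finitely presented co-hopfian group `G` with a (finitely presented) subgroup `H` of
index two that is not co-hopfian. -/
theorem result : ∃ (G : Type) (_ : Group G) (H : Subgroup G),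
    Group.IsFinitelyPresented G ∧ Group.IsFinitelyPresented H ∧ H.index = 2 ∧
    (∀ f : G →* G, Function.Injective f → Function.Surjective f) ∧
    ∃ f : H →* H, Function.Injective f ∧ ¬ Function.Surjective f := by
  haveI := G_fp
  haveI := finiteIndex_H
  refine ⟨G, inferInstance, H, inferInstance,
    Pool.Agent.V11238.MG.fp_of_finiteIndex H, index_H, coHopfian_G, ?_⟩
  have h := not_coHopfian_H
  unfold CoHopfian at h
  push Not at h
  exact h

end Pool.Agent.Results.MP_ce3880_al.CoHopfSubgroup
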