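import Pool.Agent.Helper533.Deny.Final

set_option autoImplicit false

/-!
# Deny's theorem for `𝒜`-superharmonic functions (MP_9b58c5_an, Q1)

Every `𝒜`-polar `G_δ` subset of `ℝⁿ` is exactly the infinity set of an `𝒜`-superharmonic function
on the whole space.

Definitions (in `Pool/Agent/Helper533/Polar/Stmt.lean` and `Pool/Agent/Helper533/Deny/Stmt.lean`):

* `Sp n` is `ℝⁿ`; `wm w` is the measure `w dx`.
* `Deny.IsAdmissible p w`: `w ≥ 0` is locally integrable and `w dx` is `p`-admissible, that is,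
  doubling with a weighted `(1, p)`-Poincaré inequality on balls.
* `IsOperator p α β w 𝒜`: the structure conditions on `𝒜` of the problem.
* `Deny.IsSuperharmonic 𝒜 p w Ω u`: `u` is `𝒜`-superharmonic in `Ω`.
* `Deny.IsPolar 𝒜 p w E`: `E` is `𝒜`-polar.
-/

namespace Pool.Agent.Results.MP_9b58c5_an.DenyTheorem

open Pool.Agent.Helper533 Pool.Agent.Helper533.Polar.Stmt

/-- For every `n ≥ 1`, `1 < p < ∞`, every `p`-admissible weight `w`, every operator `𝒜` with the
structure conditions, and every `𝒜`-polar `G_δ` set `E ⊆ ℝⁿ` there is an `𝒜`-superharmonic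
function `u` in `ℝⁿ` with `E = {x | u x = ∞}`. -/
theorem result (n : ℕ) (hn : 1 ≤ n) (p α β : ℝ) (hp : 1 < p) (w : Sp n → ℝ)
    (hw : Deny.IsAdmissible p w) (𝒜 : Sp n → Sp n → Sp n) (hA : IsOperator p α β w 𝒜)
    (E : Set (Sp n)) (hE : IsGδ E) (hpol : Deny.IsPolar 𝒜 p w E) :
    ∃ u : Sp n → EReal, Deny.IsSuperharmonic 𝒜 p w Set.univ u ∧ {x | u x = ⊤} = E :=
  Polar.deny_theorem hn hp hw hA hE hpol

end Pool.Agent.Results.MP_9b58c5_an.DenyTheorem
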