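import Mathlib
import Pool.Agent.H990R2.CTFam
import Pool.Agent.Y307.Prof.Cont

open Finset Filter Topology
open Pool.Agent

namespace Pool.Agent.Results.MP_d1aba8_pr.NoTypicalCutoff

noncomputable section

/-- `Q` is the generator of an irreducible continuous-time Markov chain on the finite set `V` with
stationary distribution `π`: nonnegative off-diagonal entries, zero row sums, every state can be
reached from every other one by transitions of positive rate, and `π` is a probability vector with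
`π Q = 0`. -/
structure IsChain {V : Type} [Fintype V] (Q : Matrix V V ℝ) (π : V → ℝ) : Prop where
  rate_nonneg : ∀ x y, x ≠ y → 0 ≤ Q x y
  row_sum : ∀ x, ∑ y, Q x y = 0
  irreducible : ∀ x y, Relation.ReflTransGen (fun a b => 0 < Q a b) x y
  stat_nonneg : ∀ x, 0 ≤ π x
  stat_sum : ∑ x, π x = 1
  stationary : ∀ y, ∑ x, π x * Q x y = 0

/-- `P_x(X_t = y)`: the row `x` of the matrix exponential of `t Q`. -/
def law {V : Type} [Fintype V] [DecidableEq V] (Q : Matrix V V ℝ) (t : ℝ) (x y : V) : ℝ :=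
  NormedSpace.exp (t • Q) x y

/-- `d_x(t) = ‖P_x(X_t ∈ ·) - π‖_TV`. -/
def d {V : Type} [Fintype V] [DecidableEq V] (Q : Matrix V V ℝ) (π : V → ℝ) (x : V) (t : ℝ) : ℝ :=
  (1 / 2 : ℝ) * ∑ y, |law Q t x y - π y|

/-- `τ_x = inf {t ≥ 0 : d_x(t) ≤ 1/4}`. -/
def tau {V : Type} [Fintype V] [DecidableEq V] (Q : Matrix V V ℝ) (π : V → ℝ) (x : V) : ℝ :=
  sInf {t : ℝ | 0 ≤ t ∧ d Q π x t ≤ 1 / 4}

open Classical in
/-- The `π`-probability of the set of the states with the property `A`. -/
def prob {V : Type} [Fintype V] (π : V → ℝ) (A : V → Prop) : ℝ := ∑ x, if A x then π x else 0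

/-- `m` is a median of `τ_x` when `x` is drawn from `π`. -/
def IsMedian {V : Type} [Fintype V] [DecidableEq V] (Q : Matrix V V ℝ) (π : V → ℝ) (m : ℝ) :
    Prop :=
  1 / 2 ≤ prob π (fun x => tau Q π x ≤ m) ∧ 1 / 2 ≤ prob π (fun x => m ≤ tau Q π x)

/-- The relaxation time `1 / λ`, where `λ` is the smallest real part of a nonzero complex
eigenvalue of `-Q`. -/
def trel {V : Type} [Fintype V] [DecidableEq V] (Q : Matrix V V ℝ) : ℝ :=
  1 / sInf {r : ℝ | ∃ z ∈ spectrum ℂ (-(Q.map Complex.ofReal)), z ≠ 0 ∧ z.re = r}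

/-- The two convergences of the question, for every `ε ∈ (0, 1)`, at the times `τ n`. -/
def HasTypicalCutoff (V : ℕ → Type) [∀ n, Fintype (V n)] [∀ n, DecidableEq (V n)]
    (Q : ∀ n, Matrix (V n) (V n) ℝ) (π : ∀ n, V n → ℝ) (τ : ℕ → ℝ) : Prop :=
  ∀ ε : ℝ, 0 < ε → ε < 1 →
    Tendsto (fun n => prob (π n) (fun x => 1 - ε < d (Q n) (π n) x ((1 - ε) * τ n)))
      atTop (𝓝 1) ∧
    Tendsto (fun n => prob (π n) (fun x => d (Q n) (π n) x ((1 + ε) * τ n) < ε)) atTop (𝓝 1)

section

variable {G : Type} [AddCommGroup G] [Fintype G] [DecidableEq G] {S : Finset G} {T : ℕ}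

/-- the uniform distribution -/
def unif (G : Type) [Fintype G] (_ : G) : ℝ := 1 / (Fintype.card G : ℝ)

/-- the generator of the walk -/
def gen (S : Finset G) (h0 : (0 : G) ∉ S) (hn : ∀ s ∈ S, -s ∈ S) : Matrix G G ℝ :=
  H990R2.CT.srw S h0 hn - 1

theorem srw_apply (h : Helper394.Bad S T) (x y : G) :
    H990R2.CT.srw S h.zero h.neg x y = if y - x ∈ S then 1 / (S.card : ℝ) else 0 :=
  H990R2.CT.P_entry (fun f => H990R2.CT.srw_mulVec S h.zero h.neg f) x y

theorem gen_symm (h : Helper394.Bad S T) (x y : G) :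
    gen S h.zero h.neg x y = gen S h.zero h.neg y x := by
  have h1 := H990R2.CT.P_symm h (fun f => H990R2.CT.srw_mulVec S h.zero h.neg f) x y
  simp only [gen, Matrix.sub_apply, h1, Matrix.one_apply, eq_comm]

theorem gen_row (h : Helper394.Bad S T) (x : G) : ∑ y, gen S h.zero h.neg x y = 0 := by
  have hc : (0 : ℝ) < S.card := by exact_mod_cast h.nonempty.card_pos
  have h1 : ∑ y, H990R2.CT.srw S h.zero h.neg x y = 1 := by
    simp only [srw_apply h]
    rw [← Finset.sum_filter, Finset.sum_const, nsmul_eq_mul]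
    have h2 : (Finset.univ.filter (fun y : G => y - x ∈ S)).card = S.card := by
      refine Finset.card_bij' (fun y _ => y - x) (fun s _ => s + x) ?_ ?_ ?_ ?_
      · intro y hy; simpa using hy
      · intro s hs; simpa using hs
      · intro y _; simp
      · intro s _; simp
    rw [h2]
    field_simp
  simp only [gen, Matrix.sub_apply, Finset.sum_sub_distrib, h1]
  simp [Matrix.one_apply]

theorem isChain (h : Helper394.Bad S T) : IsChain (gen S h.zero h.neg) (unif G) where
  rate_nonneg := by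
    intro x y hxy
    simp only [gen, Matrix.sub_apply, srw_apply h, Matrix.one_apply_ne hxy, sub_zero]
    split_ifs <;> positivity
  row_sum := gen_row h
  irreducible := by
    intro x y
    have h1 := (Helper394.cay_connected h).preconnected x y
    rw [SimpleGraph.reachable_iff_reflTransGen] at h1
    refine Relation.ReflTransGen.mono (fun a b hab => ?_) x y h1
    have hc : (0 : ℝ) < S.card := by exact_mod_cast h.nonempty.card_pos
    have hne := hab.ne
    rw [Helper394.cay_adj] at hab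
    simp only [gen, Matrix.sub_apply, srw_apply h, Matrix.one_apply_ne hne, sub_zero]
    rw [if_pos hab]
    positivity
  stat_nonneg := fun x => by unfold unif; positivity
  stat_sum := by
    have hG : (0 : ℝ) < Fintype.card G := by exact_mod_cast Fintype.card_pos
    simp only [unif, Finset.sum_const, Finset.card_univ, nsmul_eq_mul]
    field_simp
  stationary := by
    intro y
    simp only [unif, ← Finset.mul_sum]
    simp only [gen_symm h _ y, gen_row h y, mul_zero]

theorem d_eq (h : Helper394.Bad S T) (x : G) (t : ℝ) :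
    d (gen S h.zero h.neg) (unif G) x t =
      (1 / 2 : ℝ) * ∑ y, |H990R2.CT.H (H990R2.CT.srw S h.zero h.neg) t x y -
        1 / (Fintype.card G : ℝ)| := rfl

theorem tau_eq (h : Helper394.Bad S T) (x : G) :
    tau (gen S h.zero h.neg) (unif G) x = H990R2.CT.tau0 (H990R2.CT.srw S h.zero h.neg) := by
  simp only [tau, H990R2.CT.tau0, d_eq h]
  simp only [H990R2.CT.tv_translate (H990R2.CT.srw_mulVec S h.zero h.neg) _ _ x]

theorem prob_const (A : G → Prop) (p : Prop) [Decidable p]
    (hA : ∀ x, A x ↔ p) : prob (unif G) A = if p then 1 else 0 := by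
  have hG : (0 : ℝ) < Fintype.card G := by exact_mod_cast Fintype.card_pos
  simp only [prob, unif, hA]
  split_ifs
  · simp only [Finset.sum_const, Finset.card_univ, nsmul_eq_mul]
    field_simp
  · simp

end

/-- There are numbers `N_n → ∞` and continuous-time Markov chains `X_n` on `ℤ/N_n` (each is
irreducible, jumps at rate `1`, is symmetric and commutes with the translations of `ℤ/N_n`), with
relaxation times at most `4`, such that the median `τ_n` of the mixing times `τ_x` is unique and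
tends to infinity, and `d_{x_n}(s τ_n) → 4^{-s}` for all starting points `x_n` and all `s ≥ 0`. So
`τ_n/τ_{2,n} → ∞`, but the first `π`-measure of the question is eventually `0` for every
`ε ∈ (0, 1/2)`, and the second one for every `ε ∈ (0, 1/8]`. -/
theorem result :
    ∃ (N : ℕ → ℕ) (_ : ∀ n, NeZero (N n))
      (Q : ∀ n, Matrix (ZMod (N n)) (ZMod (N n)) ℝ) (π : ∀ n, ZMod (N n) → ℝ) (τ : ℕ → ℝ),
      Tendsto N atTop atTop ∧
      (∀ n, IsChain (Q n) (π n)) ∧
      (∀ n x, Q n x x = -1) ∧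
      (∀ n x y, Q n x y = Q n y x) ∧
      (∀ n x y z, Q n (x + z) (y + z) = Q n x y) ∧
      (∀ n m, IsMedian (Q n) (π n) m ↔ m = τ n) ∧
      Tendsto τ atTop atTop ∧
      (∀ n, 0 < trel (Q n) ∧ trel (Q n) ≤ 4) ∧
      Tendsto (fun n => τ n / trel (Q n)) atTop atTop ∧
      (∀ s : ℝ, 0 ≤ s → ∀ x : ∀ n, ZMod (N n),
        Tendsto (fun n => d (Q n) (π n) (x n) (s * τ n)) atTop (𝓝 ((4 : ℝ) ^ (-s)))) ∧
      (∀ ε : ℝ, 0 < ε → ε < 1 / 2 →
        ∀ᶠ n in atTop, prob (π n) (fun x => 1 - ε < d (Q n) (π n) x ((1 - ε) * τ n)) = 0) ∧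
      (∀ ε : ℝ, 0 < ε → ε ≤ 1 / 8 →
        ∀ᶠ n in atTop, prob (π n) (fun x => d (Q n) (π n) x ((1 + ε) * τ n) < ε) = 0) ∧
      ¬ HasTypicalCutoff (fun n => ZMod (N n)) Q π τ := by
  obtain ⟨N, hN, S, w, hNn, hw1, hw2, hE⟩ := Y307.Prof.exists_seq
  have hB : ∀ n, Helper394.Bad (S n) (n + 64) := fun n =>
    (hE n).bad (by omega) (by nlinarith) (by omega) (by push_cast; exact hw1 n)
      (by push_cast; exact hw2 n)
  let Q : ∀ n, Matrix (ZMod (N n)) (ZMod (N n)) ℝ := fun n => gen (S n) (hB n).zero (hB n).neg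
  let P : ∀ n, Matrix (ZMod (N n)) (ZMod (N n)) ℝ := fun n =>
    H990R2.CT.srw (S n) (hB n).zero (hB n).neg
  have hP : ∀ n, ∀ f : ZMod (N n) → ℝ, (P n).mulVec f = Helper394.U (S n) f :=
    fun n f => H990R2.CT.srw_mulVec (S n) _ _ f
  have hdx : ∀ n (x : ZMod (N n)) r, d (Q n) (unif _) x r = d (Q n) (unif _) 0 r := by
    intro n x r
    change d (gen (S n) (hB n).zero (hB n).neg) (unif _) x r =
      d (gen (S n) (hB n).zero (hB n).neg) (unif _) 0 r
    rw [d_eq (hB n), d_eq (hB n), H990R2.CT.tv_translate (hP n) r _ x]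
  have hsq : Y307.Prof.CSq (fun n r => d (Q n) (unif _) 0 r) (fun n => 1 / w n ^ 2)
      (fun n => 1 / (1 - w n)) (fun n => (1 / 2) ^ ((n + 64) ^ 2)) (fun n => n + 64) := by
    refine Y307.Prof.csq_of hw1 hw2 _ ?_ ?_
    · intro n r hr
      have h1 := (hE n).ct_low (by omega) (Y307.Prof.w_pos hw2 n) (Y307.Prof.w_lt hw1 n) (hB n)
        (hP n) hr
      change _ ≤ d (gen (S n) (hB n).zero (hB n).neg) (unif _) 0 r
      rw [d_eq (hB n)]
      exact h1
    · intro n r hr
      have h1 := (hE n).ct_up (by omega) (Y307.Prof.w_pos hw2 n) (Y307.Prof.w_lt hw1 n) (hB n)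
        (hP n) hr 0
      change d (gen (S n) (hB n).zero (hB n).neg) (unif _) 0 r ≤ _
      rw [d_eq (hB n)]
      exact h1
  have hτt : Tendsto (fun n => H990R2.CT.tau0 (P n) / (1 / (1 - w n))) atTop
      (𝓝 (Real.log 4)) := by
    have h1 := hsq.mixing (ε := 1 / 4) (by norm_num) (by norm_num)
    rw [one_div_one_div] at h1
    refine h1.congr fun n => ?_
    congr 1
  have hL : 0 < Real.log 4 := Real.log_pos (by norm_num)
  have hτ0 : ∀ n, 0 ≤ H990R2.CT.tau0 (P n) := by
    intro n
    have h1 := H990R2.CT.tau0_ge (hB n) (by omega) (hP n)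
    exact le_trans (by positivity) h1
  have hτ : Tendsto (fun n => H990R2.CT.tau0 (P n)) atTop atTop := by
    refine (hτt.pos_mul_atTop hL hsq.tlim).congr fun n => ?_
    exact div_mul_cancel₀ _ (hsq.tpos n).ne'
  have hprof : ∀ s : ℝ, 0 ≤ s →
      Tendsto (fun n => d (Q n) (unif _) 0 (s * H990R2.CT.tau0 (P n))) atTop (𝓝 ((4 : ℝ) ^ (-s))) := by
    intro s hs
    have h1 : Tendsto (fun n => (s * H990R2.CT.tau0 (P n)) / (1 / (1 - w n))) atTop
        (𝓝 (s * Real.log 4)) := by
      refine (hτt.const_mul s).congr fun n => ?_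
      ring
    have h2 := hsq.profile (fun n => mul_nonneg hs (hτ0 n)) h1
    have e : (4 : ℝ) ^ (-s) = Real.exp (-(s * Real.log 4)) := by
      rw [Real.rpow_def_of_pos (by norm_num)]
      congr 1
      ring
    rw [e]
    exact h2
  have hrel : ∀ n, 0 < trel (Q n) ∧ trel (Q n) ≤ 4 := by
    intro n
    have hge : 1 / 4 ≤
        sInf {r : ℝ | ∃ z ∈ spectrum ℂ (-((Q n).map Complex.ofReal)), z ≠ 0 ∧ z.re = r} := by
      obtain ⟨z, hz, hz0⟩ := H990R2.CT.specC_nonempty (hB n) (hP n)
      apply le_csInf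
      · exact ⟨z.re, z, hz, hz0, rfl⟩
      · rintro b ⟨z, hz, hz0, rfl⟩
        exact H990R2.CT.specC (hB n) (hP n) z hz hz0
    refine ⟨one_div_pos.mpr (by linarith), ?_⟩
    rw [trel, div_le_iff₀ (by linarith)]
    linarith
  have hf1 : ∀ ε : ℝ, 0 < ε → ε < 1 / 2 →
      ∀ᶠ n in atTop, prob (unif _) (fun x => 1 - ε < d (Q n) (unif _) x ((1 - ε) * H990R2.CT.tau0 (P n)))
        = 0 := by
    intro ε h0 h1
    have h2 : (4 : ℝ) ^ (-(1 - ε)) < 1 - ε := by
      have h3 : (4 : ℝ) ^ (-(1 - ε)) = (1 / 4) * (1 / 4) ^ (-ε) := by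
        have e4 : ((1 : ℝ) / 4) ^ (-ε) = 4 ^ ε := by
          rw [Real.rpow_neg (by norm_num), one_div, Real.inv_rpow (by norm_num), inv_inv]
        rw [e4, neg_sub, Real.rpow_sub (by norm_num), Real.rpow_one]
        ring
      have h4 : (4 : ℝ) ^ ε = (2 : ℝ) ^ (2 * ε) := by
        rw [Real.rpow_mul (by norm_num)]
        norm_num
      have h5 : (2 : ℝ) ^ (2 * ε) ≤ 1 + 2 * ε := by
        have h6 := rpow_one_add_le_one_add_mul_self (s := 1) (by norm_num)
          (p := 2 * ε) (by linarith) (by linarith)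
        norm_num at h6
        linarith
      have h7 : (4 : ℝ) ^ (-(1 - ε)) = (1 / 4) * (4 : ℝ) ^ ε := by
        rw [neg_sub, Real.rpow_sub (by norm_num), Real.rpow_one]
        ring
      rw [h7, h4]
      linarith
    filter_upwards [(hprof (1 - ε) (by linarith)).eventually (gt_mem_nhds h2)] with n hn
    have h3 := prob_const (fun x => 1 - ε <
      d (Q n) (unif _) x ((1 - ε) * H990R2.CT.tau0 (P n))) False (fun x => by
        rw [iff_false, not_lt, hdx]
        exact hn.le)
    rw [if_neg not_false] at h3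
    exact h3
  have hf2 : ∀ ε : ℝ, 0 < ε → ε ≤ 1 / 8 →
      ∀ᶠ n in atTop, prob (unif _) (fun x => d (Q n) (unif _) x ((1 + ε) * H990R2.CT.tau0 (P n)) < ε)
        = 0 := by
    intro ε h0 h1
    have h2 : ε < (4 : ℝ) ^ (-(1 + ε)) := by
      have h3 : (4 : ℝ) ^ (-(3 / 2 : ℝ)) = 1 / 8 := by
        rw [Real.rpow_neg (by norm_num), show (4 : ℝ) = 2 ^ (2 : ℝ) by norm_num,
          ← Real.rpow_mul (by norm_num)]
        norm_num
      have h4 : (4 : ℝ) ^ (-(3 / 2 : ℝ)) < (4 : ℝ) ^ (-(1 + ε)) :=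
        Real.rpow_lt_rpow_of_exponent_lt (by norm_num) (by linarith)
      linarith
    filter_upwards [(hprof (1 + ε) (by linarith)).eventually (lt_mem_nhds h2)] with n hn
    have h3 := prob_const (fun x =>
      d (Q n) (unif _) x ((1 + ε) * H990R2.CT.tau0 (P n)) < ε) False (fun x => by
        rw [iff_false, not_lt, hdx]
        exact hn.le)
    rw [if_neg not_false] at h3
    exact h3
  refine ⟨N, hN, Q, fun n => unif (ZMod (N n)), fun n => H990R2.CT.tau0 (P n), ?_,
    fun n => isChain (hB n), ?_, fun n x y => gen_symm (hB n) x y, ?_, ?_, hτ, hrel, ?_, ?_, hf1,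
    hf2, ?_⟩
  · refine tendsto_atTop_mono (fun n => ?_) tendsto_id
    have := hNn n
    simp only [id]
    omega
  · intro n x
    change (H990R2.CT.srw (S n) (hB n).zero (hB n).neg - 1) x x = -1
    rw [Matrix.sub_apply, srw_apply (hB n), sub_self, if_neg (hB n).zero, Matrix.one_apply_eq]
    norm_num
  · intro n x y z
    change (H990R2.CT.srw (S n) (hB n).zero (hB n).neg - 1) (x + z) (y + z) =
      (H990R2.CT.srw (S n) (hB n).zero (hB n).neg - 1) x y
    rw [Matrix.sub_apply, Matrix.sub_apply, srw_apply (hB n), srw_apply (hB n),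
      add_sub_add_right_eq_sub]
    simp only [Matrix.one_apply, add_left_inj]
  · intro n m
    classical
    rw [IsMedian, prob_const _ (H990R2.CT.tau0 (P n) ≤ m)
        (fun x => by rw [tau_eq (hB n)]),
      prob_const _ (m ≤ H990R2.CT.tau0 (P n)) (fun x => by rw [tau_eq (hB n)])]
    constructor
    · rintro ⟨h1, h2⟩
      have h3 : H990R2.CT.tau0 (P n) ≤ m := by
        by_contra hcon
        rw [if_neg hcon] at h1
        norm_num at h1
      have h4 : m ≤ H990R2.CT.tau0 (P n) := by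
        by_contra hcon
        rw [if_neg hcon] at h2
        norm_num at h2
      exact le_antisymm h4 h3
    · rintro rfl
      rw [if_pos le_rfl]
      norm_num
  · refine tendsto_atTop_mono (fun n => ?_) (hτ.atTop_div_const (by norm_num : (0 : ℝ) < 4))
    exact div_le_div_of_nonneg_left (hτ0 n) (hrel n).1 (hrel n).2
  · intro s hs x
    refine (hprof s hs).congr fun n => ?_
    rw [hdx n (x n)]
  · intro hcut
    obtain ⟨h1, _⟩ := hcut (1 / 4) (by norm_num) (by norm_num)
    have h2 := hf1 (1 / 4) (by norm_num) (by norm_num)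
    have h3 : Tendsto (fun n => prob (unif _) (fun x => 1 - 1 / 4 <
        d (Q n) (unif _) x ((1 - 1 / 4) * H990R2.CT.tau0 (P n)))) atTop (𝓝 0) :=
      tendsto_const_nhds.congr' (by filter_upwards [h2] with n hn; exact hn.symm)
    have := tendsto_nhds_unique h1 h3
    norm_num at this

end

end Pool.Agent.Results.MP_d1aba8_pr.NoTypicalCutoff
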